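import Pool.Agent.H892.KT.Main2

/-!
# Kato surfaces have a birational structure (problem MP_686bb6_ag, Q1)

A Kato surface is a minimal compact complex surface with `b_2 > 0` which contains a global spherical
shell. By Kato's theorem it is obtained from a contracting germ `F = Π ∘ σ`, where `Π` is a
composition of `n` blow-ups (each of them at a point of the last exceptional curve) and `σ` is a
germ of a biholomorphic map from `(ℂ², 0)` to the blown-up surface at a point `O` of the last
exceptional curve; `n = b_2`. All known surfaces of class `VII_0` with `b_2 > 0` are Kato surfaces,
and the spherical shell conjecture says that there are no others.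

We prove that every Kato surface has a birational structure: there is an atlas with values in
`ℂ² ⊂ ℙ²` such that every change of chart is the restriction of a birational self-map of `ℙ²`.

We use the following form of the data. Choose a neighbourhood `U_i` of each of the `n` centres of
the blow-ups, with coordinates such that the next centre is the point of the exceptional curve in
the direction `(0 : 1)`, the origin of the chart `(a, b) ↦ (a b, b)`. So the data are biholomorphic
maps `σ_i` from `U_i` onto a neighbourhood of the point `(0, 0)` of the chart `(a, b)` of the
blow-up of `U_{i+1}` at the origin, `i` modulo `n` (`KatoData`). The Kato germ `F` is the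
composition of the `n` maps `f_i = bA ∘ σ_i : U_i → U_{i+1}`. Its derivative at `0` has the
eigenvalues `0` and `t` with `t` the trace, and `|t| < 1` since `F` is contracting
(`KatoData.TraceLt`). The Kato surface is the quotient of the disjoint union
of the blow-ups of the `U_i` without the points `(a, b) = (0, 0)` by the equivalence
relation which identifies the point `y ≠ 0` of `U_i` with the point `σ_i(y)` of the blow-up of
`U_{i+1}` (`IsKatoSurface`).

Proof, case `t = 0`. (1) The jets of birational germs which are local biholomorphisms at `0` are
arbitrary: the homogeneous polynomial vector fields of degree `k` are spanned by the linear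
conjugates of `y_2^k ∂_1` and `y_1 y_2^(k-1) ∂_1`, the leading terms of the birational maps
`(y_1 + c y_2^k, y_2)` and `(y_1 (1 + c y_2^(k-1)), y_2)`. (2) Kato germs with nilpotent derivative
are finitely determined in the class of Kato germs: if `σ'_i` and `σ_i` have the same jet of high
order, then there are `φ_i = id + O(3)` whose lifts `φ̂_i` to the blow-ups satisfy
`φ̂_{i+1} ∘ σ_i = σ'_i ∘ φ_i`. They are found as a fixed point of
`φ ↦ (σ'_i)⁻¹ ∘ φ̂_{i+1} ∘ σ_i`. The lift to the blow-up costs a factor `1 / |b|`, which is
compensated by the weight `W_i(y) = max_k |F^k(y)|^(4M-1-2k)`, since the iterates of the germ are
superattracting. (3) The maps `φ_i` transform the complex structure of the Kato surface into one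
with the changes of charts `σ'_i ∘ bA`, which are birational. Since the surface is compact, the atlas
can be refined such that every change of charts is the restriction of one birational map.

Proof, case `t ≠ 0` (Enoki surfaces). The Kato data are conjugate to data with linear maps
`σ_i (y) = (c_i y_1 + p_i y_2, τ y_2)`, `τ^n = t`: one first makes the second coordinate an
eigenfunction, by an infinite product, and then the first coordinate is linearised by a primitive of
an infinite product and by the solution of a functional equation in one variable.
-/

set_option autoImplicit false

open scoped Manifold ContDiff

namespace Pool.Agent.Results.MP_686bb6_ag.KatoSurfaces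

open Pool.Agent.H892.KT

/-- **Every Kato surface has a birational structure.** Let `K` be Kato data with `n ≥ 1` blow-ups
such that the derivative at `0` of the Kato germ `F = f_{n-1} ∘ … ∘ f_0` has a trace of absolute
value `< 1`, and let the compact complex surface `X` be the Kato surface of `K`. Then `X` has a
holomorphic atlas (with values in `ℂ² ⊂ ℙ²`) such that every change of chart is the restriction of a
birational self-map of `ℙ²`. -/
theorem result (n : ℕ) [NeZero n] (K : KatoData n) (hK : K.TraceLt) (X : Type)
    [TopologicalSpace X] [T2Space X] [CompactSpace X] [ChartedSpace (ℂ × ℂ) X]
    [IsManifold 𝓘(ℂ, ℂ × ℂ) ω X] (hX : IsKatoSurface K X) : HasBirationalStructure X :=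
  main_all n K hK X hX

end Pool.Agent.Results.MP_686bb6_ag.KatoSurfaces
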